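import Pool.Agent.K1H20.CK.AllAlg

/-!
# Murre's conjecture (C) for varieties with algebraic cohomology, and Bloch's conjecture

Let `𝒱` be a class of smooth projective varieties over a field `k` which is closed under products,
with Chow groups `C` (rational coefficients) and a Weil cohomology theory `W`. Let `X` be in `𝒱` and
let `F^m CH^i(X)` be independent of the Chow–Künneth decomposition, for one pair `i`, `m` with
`0 ≤ 2 i - m < 2 dim X`.

1. Let `π` be a Chow–Künneth decomposition of `X` and let `H^(2j)(X)` and `H^(2 dim X - 2j)(X)` be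
   spanned by algebraic classes. Then `π (2j)` acts as zero on the homologically trivial part of
   `CH^i(X)`, and on all of `CH^i(X)` if `i ≠ j`. (For a surface with `p_g = 0`, `j = 1`, `i = 2`:
   `F^2 CH^2(X) = F^3 CH^2(X)`.)
2. If the cohomology of `X` is spanned by algebraic classes, then `X` has a Chow–Künneth
   decomposition, and for each such pair the independence of `F^m CH^i(X)` is equivalent to the
   injectivity of the cycle class map on `CH^i(X)`; if `dim X > 0`, then (C) for `X` is equivalent
   to the injectivity of the cycle class map on all `CH^i(X)`.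
3. For a surface with `H^1 = 0` and `H^2` spanned by classes of divisors and `m = 1, …, 4`: the
   independence of `F^m CH^2(X)` is equivalent to the vanishing of all zero-cycles of degree zero
   (Bloch's conjecture for `X`).
-/

open Pool.Agent.H914 Pool.Agent.H914.VarClass Pool.Agent.H914.VarClass.Obj Pool.Agent.R903
  Pool.Agent.K1H20.CK

universe u v w

namespace Pool.Agent.Results.MP_10f4af_ag.AlgebraicCohomology

theorem result {k : Type u} [Field k] {𝒱 : VarClass k} {C : ChowTheory.{u, v} 𝒱}
    (W : WeilTheory.{u, v, w} C) :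
    (∀ (X : 𝒱.Obj) (j : ℕ), j ≤ X.dim → AlgebraicIn W X j → AlgebraicIn W X (X.dim - j) →
      IndependenceKills W X j) ∧
    (∀ X : 𝒱.Obj, AlgebraicCohomology W X → W.HasCK X ∧
      (∀ i m, InRange X i m → (W.Indep X i m ↔ ClassInjective W X i)) ∧
      (0 < X.dim → (W.MurreC X ↔ ∀ i, ClassInjective W X i))) ∧
    (C.Polarized → ∀ X : 𝒱.Obj, X.dim = 2 → W.gr X 1 = ⊥ → AlgebraicIn W X 1 →
      ∀ m, 1 ≤ m → m ≤ 4 → (W.Indep X 2 m ↔ ZeroCyclesTrivial C X)) := by
  refine ⟨?_, ?_, ?_⟩
  · intro X j hj h1 h2 π h i m hr hI x hx hij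
    obtain ⟨n, a, b, hD⟩ := exists_dual hj h1 h2
    exact trans_act h hD hj hr.1 hr.2 hI hx hij
  · intro X hA
    exact ⟨hasCK_of_algebraic hA, fun i m hr => ⟨inj_of_indep hA hr.1 hr.2,
      fun h => indep_of_inj h m⟩, murreC_iff hA⟩
  · intro hP X hd h1 h2 m hm hm'
    have hA := algebraic_surface hP hd h1 h2
    have h3 : ClassInjective W X X.dim ↔ ZeroCyclesTrivial C X :=
      classInjective_top (W := W) X
    rw [← h3, hd]
    exact ⟨inj_of_indep hA (by omega) (by omega), fun h => indep_of_inj h m⟩

end Pool.Agent.Results.MP_10f4af_ag.AlgebraicCohomology
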