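import Pool.Agent.K1H20.CK.Func

/-!
# Murre's conjecture (C) and the axioms of a Bloch–Beilinson filtration

Let `𝒱` be a class of smooth projective varieties over a field `k` which is closed under products,
with Chow groups `C` (rational coefficients) and a Weil cohomology theory `W`.

All groups `F^k CH^i(X)` are independent of the Chow–Künneth decomposition (Murre's conjecture (C)
for the class) if and only if the filtrations have the following formal properties of a
Bloch–Beilinson filtration, for all choices of Chow–Künneth decompositions: they are functorial for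
all correspondences between varieties of the class, they are multiplicative, and
`F^0 CH^i(X) = CH^i(X)`. Functoriality alone suffices. More precisely, functoriality for the
correspondences between two varieties `X` and `Y` follows from the independence of
`F^0 CH^c(X × Y)` for all `c`.
-/

open Pool.Agent.H914 Pool.Agent.H914.VarClass Pool.Agent.H914.VarClass.Obj Pool.Agent.R903
  Pool.Agent.K1H20.CK

universe u v w

namespace Pool.Agent.Results.MP_10f4af_ag.FunctorialFiltration

theorem result {k : Type u} [Field k] {𝒱 : VarClass k} {C : ChowTheory.{u, v} 𝒱}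
    (W : WeilTheory.{u, v, w} C) (hP : C.Polarized) :
    List.TFAE [∀ X : 𝒱.Obj, W.MurreC X,
      ∀ X Y : 𝒱.Obj, FunctorialFor W X Y,
      (∀ X Y : 𝒱.Obj, FunctorialFor W X Y) ∧ ∀ X : 𝒱.Obj, Multiplicative W X ∧ Exhaustive W X] ∧
    ∀ X Y : 𝒱.Obj, (∀ c, W.Indep (X.prod Y) c 0) → FunctorialFor W X Y := by
  have h1 : ∀ X Y : 𝒱.Obj, (∀ c, W.Indep (X.prod Y) c 0) → FunctorialFor W X Y :=
    fun X Y h => functorialFor (blocksVanish fun i => (h i).murreB0 hP)
  refine ⟨?_, h1⟩
  tfae_have 1 → 3 := by
    intro h
    refine ⟨fun X Y => h1 X Y fun c => h _ c 0, fun X => ⟨multiplicative (h1 _ _ fun c => h _ c 0),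
      fun π hπ i => (h X i 0).murreB0 hP π hπ⟩⟩
  tfae_have 3 → 2 := fun h => h.1
  tfae_have 2 → 1 := fun h X => murreC_of_functorialFor (h X X)
  tfae_finish

end Pool.Agent.Results.MP_10f4af_ag.FunctorialFiltration
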