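import Pool.Agent.K1H20.CK.Act

/-!
# Murre's conjecture (C), phantoms, and one Chow–Künneth decomposition

Let `𝒱` be a class of smooth projective varieties over a field `k` which is closed under products,
with Chow groups `C` (rational coefficients) and a Weil cohomology theory `W`.

A phantom of `X` is a nonzero idempotent in `CH^(dim X)(X × X)` which acts as zero on the cohomology
of `X`. Let (P) be the following property of `X`: there is no phantom, and there is one
Chow–Künneth decomposition of `X` with `Hom(h^a(X), h^b(X)) = 0` for all `a < b`.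

For each `X` with a Chow–Künneth decomposition: (P) holds if and only if the right ideals
`(π 0 + ⋯ + π m) ∘ CH^(dim X)(X × X)` are independent of the decomposition; (P) follows from the
independence of `F^0 CH^(dim X)(X × X)`; and (P) implies the independence of all `F^k CH^i(X)`.
Consequently Murre's conjecture (C) for all varieties of the class is equivalent to (P) for all
varieties of the class which have a Chow–Künneth decomposition.
-/

open Pool.Agent.H914 Pool.Agent.H914.VarClass Pool.Agent.H914.VarClass.Obj Pool.Agent.R903
  Pool.Agent.K1H20.CK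

universe u v w

namespace Pool.Agent.Results.MP_10f4af_ag.NoPhantomsCriterion

theorem result {k : Type u} [Field k] {𝒱 : VarClass k} {C : ChowTheory.{u, v} 𝒱}
    (W : WeilTheory.{u, v, w} C) (hP : C.Polarized) :
    (∀ X : 𝒱.Obj, W.HasCK X → (WeightIndep W X ↔ NoPhantomsAndTriangular W X) ∧
      (W.Indep (X.prod X) X.dim 0 → NoPhantomsAndTriangular W X) ∧
      (NoPhantomsAndTriangular W X → W.MurreC X)) ∧
    ((∀ X : 𝒱.Obj, W.MurreC X) ↔ ∀ X : 𝒱.Obj, W.HasCK X → NoPhantomsAndTriangular W X) := by
  have h1 : ∀ X : 𝒱.Obj, W.HasCK X → (WeightIndep W X ↔ NoPhantomsAndTriangular W X) ∧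
      (W.Indep (X.prod X) X.dim 0 → NoPhantomsAndTriangular W X) ∧
      (NoPhantomsAndTriangular W X → W.MurreC X) := by
    intro X hCK
    have h := tfae (W := W) (X := X) hP hCK
    refine ⟨h.out 1 2, fun hI => ?_, fun hN => ?_⟩
    · exact (h.out 0 2).1 (hI.murreB0 hP).triangular
    · have hT : W.Triangular X := (h.out 0 2).2 hN
      exact hT.murreC
  refine ⟨h1, fun h X hCK => (h1 X hCK).2.1 (h _ _ 0), fun h X => ?_⟩
  by_cases hCK : W.HasCK X
  · exact (h1 X hCK).2.2 (h X hCK)
  · intro i m π _ hπ _
    exact absurd ⟨π, hπ⟩ hCK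

end Pool.Agent.Results.MP_10f4af_ag.NoPhantomsCriterion
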