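import Pool.Agent.K1H20.CK.Func

/-!
# Murre's conjecture (C) for one variety is a property of one Chow–Künneth decomposition

Let `𝒱` be a class of smooth projective varieties over a field `k` which is closed under products,
with Chow groups `C` (rational coefficients) and a Weil cohomology theory `W`. Let `X` be in `𝒱`
and let `π` be a Chow–Künneth decomposition of `X`.

If all `F^m CH^i(X)` are independent of the decomposition, then they are stable under all
correspondences in `CH^(dim X)(X × X)`. Conversely, suppose that the homologically trivial
correspondences in `CH^(dim X)(X × X)` act as nilpotent operators on `CH^*(X)` (this is so if the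
motive of `X` is finite-dimensional in the sense of Kimura and O'Sullivan, for example for abelian
varieties and products of curves). If the filtration given by this one decomposition `π` is stable
under all correspondences in `CH^(dim X)(X × X)`, then all `F^m CH^i(X)` are independent of the
decomposition.
-/

open Pool.Agent.H914 Pool.Agent.H914.VarClass Pool.Agent.H914.VarClass.Obj Pool.Agent.R903
  Pool.Agent.K1H20.CK

universe u v w

namespace Pool.Agent.Results.MP_10f4af_ag.StabilityCriterion

theorem result {k : Type u} [Field k] {𝒱 : VarClass k} {C : ChowTheory.{u, v} 𝒱}
    (W : WeilTheory.{u, v, w} C) (hP : C.Polarized) (X : 𝒱.Obj) (π : ℕ → C.CH (X.prod X))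
    (h : W.IsCK X π) :
    (W.MurreC X → Stable C π) ∧ (ActNilpotent W X → (W.MurreC X ↔ Stable C π)) := by
  have h3 : W.MurreC X → Stable C π :=
    fun hC => stable_of_actTriangular h (actTriangular_of_murreC hP hC h)
  exact ⟨h3, fun hn => ⟨h3, fun hS => murreC_of_act hn h (actTriangular_of_stable hP h hS)⟩⟩

end Pool.Agent.Results.MP_10f4af_ag.StabilityCriterion
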